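import Pool.Agent.Helper19.PS.St.StubsA

/-!
# Project PS (MP_19c155_gt, captain helper19), piece PS-22: pencils and the normalised bound
with a gain (adapted from helper20's Pencil.lean and NormC.lean)
-/

open MeasureTheory Set Metric Filter Module Matrix
open scoped NNReal Topology RealInnerProductSpace ENNReal Real

namespace Pool.Agent.Helper19.PS

open Pool.Agent.Helper20.VF

theorem pencil_ineq_gain {n : ℕ} {P₁ P₂ : Matrix (Fin (n + 1)) (Fin (n + 1)) ℝ} (hn : 5 ≤ n)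
    (hW : OneVarG n) (hP : P₁ * P₁ᵀ + P₂ * P₂ᵀ = 1)
    (hpos : ∀ t, 0 < frm (pa P₁) (pb P₁ P₂) t) :
    ∃ φ u : ℝ, 0 < u ∧ u ≤ 1 / 2 ∧
    (∑ i : Fin n, ∑ j, Qc P₁ P₂ φ i.castSucc j ^ 2) = n * (1 - u) ∧
    (∫ t in (0 : ℝ)..(2 * π), ((2 * n + 3) * ((∑ i, ∑ j, (Qc P₁ P₂ t).adjugate i j ^ 2)
          - (Qc P₁ P₂ t).det ^ 2)
          - (n + 3) / (n + 1) * (trace ((Qc P₁ P₂ t).adjugate * Qs P₁ P₂ t)) ^ 2)
        * frm (pa P₁) (pb P₁ P₂) t ^ (-((n : ℝ) / 2))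
      ≤ 2 * (n + 1) * n * (2 * (∫ t in (0 : ℝ)..(2 * π), |Real.cos t| ^ n)
            * (1 - (n * u + (1 - ∑ j, Qc P₁ P₂ φ (Fin.last n) j ^ 2)) / (2 * n))
          - ∫ t in (0 : ℝ)..(2 * π), frm (pa P₁) (pb P₁ P₂) t ^ ((n : ℝ) / 2))) ∧
    ∫ t in (0 : ℝ)..(2 * π), frm (pa P₁) (pb P₁ P₂) t ^ ((n : ℝ) / 2)
      ≤ (∫ t in (0 : ℝ)..(2 * π), |Real.cos t| ^ n) * (1 - u / 2) := by
  have hadjc : Continuous (fun t => (Qc P₁ P₂ t).adjugate) := continuous_Qc.matrix_adjugate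
  obtain ⟨φ, u, hu0, hu1, hfrm, hint, hJ⟩ := Spec.circle_ineq_gain hn hW
    (a' := ∑ j, P₁ (Fin.last n) j ^ 2)
    (b' := ∑ j, P₁ (Fin.last n) j * P₂ (Fin.last n) j) hpos
    (by
      intro t
      rw [← row_form hP]
      exact Finset.sum_nonneg (fun _ _ => sq_nonneg _))
    (δ := fun t => (Qc P₁ P₂ t).det) (δ' := fun t => trace ((Qc P₁ P₂ t).adjugate * Qs P₁ P₂ t))
    (σ := fun t => ∑ i, ∑ j, (Qc P₁ P₂ t).adjugate i j ^ 2)
    (by
      intro t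
      exact hasDerivAt_det (Qc P₁ P₂) (Qs P₁ P₂ t) t (fun i j => hasDerivAt_Qc t i j))
    ((hadjc.matrix_mul continuous_Qs).matrix_trace)
    (by
      have := Qc_periodic (P₁ := P₁) (P₂ := P₂) 0
      rw [zero_add] at this
      rw [this])
    (by
      refine continuous_finsetSum _ (fun i _ => continuous_finsetSum _ (fun j _ => ?_))
      exact (hadjc.matrix_elem i j).pow 2)
    (by
      intro t
      rw [← row_form hP, ← mean_form (by omega) hP]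
      exact Pool.Agent.Helper77.Star.star_ineq (by omega) (Qc P₁ P₂ t) (Qc_contraction hP t)
        _ _ rfl rfl)
    (by
      intro t
      rw [← row_form hP, ← mean_form (by omega) hP]
      exact det_bound (by omega) (Qc P₁ P₂ t) (Qc_contraction hP t))
  refine ⟨φ, u, hu0, hu1, ?_, ?_, hJ⟩
  · have h1 := mean_form (by omega) hP φ
    rw [hfrm] at h1
    have hn' : (n : ℝ) ≠ 0 := by
      have : (n : ℝ) ≠ ((0 : ℕ) : ℝ) := by exact_mod_cast (by omega : n ≠ 0)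
      simpa using this
    rw [div_eq_iff hn'] at h1
    rw [h1]
    ring
  · rw [row_form hP]
    exact hint

theorem norm_bound_gain {n : ℕ} {P₁ P₂ : Matrix (Fin (n + 1)) (Fin (n + 1)) ℝ}
    {a : Fin (n + 1) → ℝ} (hn : 5 ≤ n) (hW : OneVarG n) (hP : P₁ * P₁ᵀ + P₂ * P₂ᵀ = 1)
    (hpos : ∀ t, 0 < frm (pa P₁) (pb P₁ P₂) t) (s : ℝ) (ha : a = s • Pi.single (Fin.last n) 1) :
    ∃ φ be : ℝ, 0 ≤ be ∧
    (∑ i : Fin n, ∑ j, Qc P₁ P₂ φ i.castSucc j ^ 2)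
        + ((∑ j, Qc P₁ P₂ φ (Fin.last n) j ^ 2) + s ^ 2) / (1 + s ^ 2) = n + 1 - be ∧
    ∫⁻ p : ℝ × ℝ, ∫⁻ y : EuclideanSpace ℝ (Fin (n + 1)), ENNReal.ofReal (√(p.1 ^ 2 + p.2 ^ 2 + ‖y‖ ^ 2)
        * √((Gm P₁ P₂ a y.ofLp p.1 p.2).det)
        * (gw y * Real.exp (-(p.1 ^ 2 + p.2 ^ 2) / 2)))
      ≤ ENNReal.ofReal (KN n * √(1 + s ^ 2) * (1 - be / (2 * n))) := by
  have hs0 : 0 < 1 + s ^ 2 := by positivity
  have hn0 : (0 : ℝ) < 2 * n + 3 := by positivity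
  set L : ℝ := √(2 * (n + 1) / (2 * n + 3) * (1 + s ^ 2)) with hL
  have hL0 : 0 < L := Real.sqrt_pos.2 (by positivity)
  have hLsq : L ^ 2 = 2 * (n + 1) / (2 * n + 3) * (1 + s ^ 2) := Real.sq_sqrt (by positivity)
  obtain ⟨φ₀, u, hu0, hu1, hfirst, hpen, hJu⟩ := pencil_ineq_gain hn hW hP hpos
  set κ : ℝ := ∑ j, Qc P₁ P₂ φ₀ (Fin.last n) j ^ 2 with hκ
  have hnR : (0 : ℝ) < n := by exact_mod_cast (by omega : 0 < n)
  have hκ1 : κ ≤ 1 := by
    have h := congrFun (congrFun (Qc_mul_add hP φ₀) (Fin.last n)) (Fin.last n)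
    simp only [Matrix.add_apply, Matrix.mul_apply, transpose_apply, Matrix.one_apply_eq] at h
    have h1 : κ = ∑ j, Qc P₁ P₂ φ₀ (Fin.last n) j * Qc P₁ P₂ φ₀ (Fin.last n) j := by
      rw [hκ]
      exact Finset.sum_congr rfl (fun j _ => sq _)
    have h2 : 0 ≤ ∑ j, Qs P₁ P₂ φ₀ (Fin.last n) j * Qs P₁ P₂ φ₀ (Fin.last n) j :=
      Finset.sum_nonneg (fun j _ => mul_self_nonneg _)
    linarith
  refine ⟨φ₀, n * u + (1 - κ) / (1 + s ^ 2), ?_, ?_, ?_⟩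
  · have : 0 ≤ (1 - κ) / (1 + s ^ 2) := div_nonneg (by linarith) hs0.le
    positivity
  · rw [hfirst]
    field_simp
    ring
  refine (polar_bound (a := a) (by omega) hP hpos hL0).trans (ENNReal.ofReal_le_ofReal ?_)
  set Γ : ℝ := ∫ t in (0 : ℝ)..(2 * π), |Real.cos t| ^ n with hΓ
  set J : ℝ := ∫ t in (0 : ℝ)..(2 * π), frm (pa P₁) (pb P₁ P₂) t ^ ((n : ℝ) / 2) with hJ
  have hΓ0 : 0 ≤ Γ := intervalIntegral.integral_nonneg (by positivity) (fun t _ => by positivity)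
  have hJ0 : 0 ≤ J := intervalIntegral.integral_nonneg (by positivity)
    (fun t _ => Real.rpow_nonneg (hpos t).le _)
  have h1 : Continuous (fun φ : ℝ => frm (pa P₁) (pb P₁ P₂) φ ^ (-((n : ℝ) / 2))) :=
    continuous_rpow_frm hpos _
  have h2 : Continuous (fun φ : ℝ => frm (pa P₁) (pb P₁ P₂) φ ^ (((n : ℝ) / 2))) :=
    continuous_rpow_frm hpos _
  have h3 : Continuous (fun φ => (Qc P₁ P₂ φ).det) := continuous_Qc.matrix_det
  have h4 : Continuous (fun φ => trace ((Qc P₁ P₂ φ).adjugate * Qs P₁ P₂ φ)) :=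
    (continuous_adj.matrix_mul continuous_Qs).matrix_trace
  have h5 := continuous_sigma (P₁ := P₁) (P₂ := P₂)
  have h6 := continuous_alpha (P₁ := P₁) (P₂ := P₂) (a := a)
  set f1 : ℝ → ℝ := fun φ => ((2 * n + 3) * ((∑ i, ∑ j, (Qc P₁ P₂ φ).adjugate i j ^ 2)
          - (Qc P₁ P₂ φ).det ^ 2)
          - (n + 3) / (n + 1) * (trace ((Qc P₁ P₂ φ).adjugate * Qs P₁ P₂ φ)) ^ 2)
          * frm (pa P₁) (pb P₁ P₂) φ ^ (-((n : ℝ) / 2)) with hf1
  set f2 : ℝ → ℝ := fun φ => (((Qc P₁ P₂ φ).adjugate *ᵥ a) ⬝ᵥ ((Qc P₁ P₂ φ).adjugate *ᵥ a))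
          * frm (pa P₁) (pb P₁ P₂) φ ^ (-((n : ℝ) / 2)) with hf2
  set f3 : ℝ → ℝ := fun φ => frm (pa P₁) (pb P₁ P₂) φ ^ ((n : ℝ) / 2) with hf3
  have c1 : Continuous f1 := by simp only [hf1]; fun_prop
  have c2 : Continuous f2 := h6.mul h1
  have c3 : Continuous f3 := h2
  have hsplit : ∫ φ in (0 : ℝ)..(2 * π), Fr P₁ P₂ a L φ
      = Zg (EuclideanSpace ℝ (Fin (n + 1))) / 2 * gm (n - 1) * (L⁻¹ * ((∫ φ in (0 : ℝ)..(2 * π), f1 φ)
        + 2 * n * (n + 1) * ∫ φ in (0 : ℝ)..(2 * π), f2 φ) + L * n * (2 * n + 3) * J) := by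
    have e : ∀ φ, Fr P₁ P₂ a L φ = Zg (EuclideanSpace ℝ (Fin (n + 1))) / 2 * gm (n - 1) * L⁻¹ * f1 φ
        + Zg (EuclideanSpace ℝ (Fin (n + 1))) / 2 * gm (n - 1) * L⁻¹ * (2 * n * (n + 1)) * f2 φ
        + Zg (EuclideanSpace ℝ (Fin (n + 1))) / 2 * gm (n - 1) * (L * n * (2 * n + 3)) * f3 φ := by
      intro φ
      simp only [Fr, hf1, hf2, hf3]
      ring
    simp_rw [e]
    rw [intervalIntegral.integral_of_le (by positivity), integral_three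
      ((c1.intervalIntegrable 0 (2 * π)).1) ((c2.intervalIntegrable 0 (2 * π)).1)
      ((c3.intervalIntegrable 0 (2 * π)).1), ← intervalIntegral.integral_of_le (by positivity),
      ← intervalIntegral.integral_of_le (by positivity),
      ← intervalIntegral.integral_of_le (by positivity)]
    simp only [hJ, hf3]
    ring
  have hf2le : ∫ φ in (0 : ℝ)..(2 * π), f2 φ ≤ s ^ 2 * J := by
    rw [hJ, ← intervalIntegral.integral_const_mul]
    refine intervalIntegral.integral_mono (by positivity) (c2.intervalIntegrable _ _)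
      ((c3.const_mul _).intervalIntegrable _ _) (fun φ => ?_)
    have hα : ((Qc P₁ P₂ φ).adjugate *ᵥ a) ⬝ᵥ ((Qc P₁ P₂ φ).adjugate *ᵥ a)
        = s ^ 2 * ∑ j, (Qc P₁ P₂ φ).adjugate j (Fin.last n) ^ 2 := by
      rw [ha, mulVec_smul, mulVec_single_one]
      simp only [dotProduct, Pi.smul_apply, smul_eq_mul, col_apply, Finset.mul_sum]
      exact Finset.sum_congr rfl (fun j _ => by ring)
    have hb := cofactor_bound (by omega) (Qc P₁ P₂ φ) (Qc_contraction hP φ)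
    rw [mean_form (by omega) hP] at hb
    simp only [hf2, hf3]
    rw [hα]
    have hr0 := rpow_aux (hpos φ) (n := n) 0 (by omega)
    simp only [Nat.cast_zero, sub_zero] at hr0
    rw [← hr0, mul_assoc]
    refine mul_le_mul_of_nonneg_left ?_ (sq_nonneg s)
    exact mul_le_mul_of_nonneg_right hb (Real.rpow_nonneg (hpos φ).le _)
  rw [hsplit]
  have hgm : gm (n + 1) = n * gm (n - 1) := by
    have q2 := gm_succ_succ (n - 1)
    have q3 : n - 1 + 2 = n + 1 := by omega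
    rw [q3] at q2
    rw [q2]
    push_cast [Nat.cast_sub (by omega : 1 ≤ n)]
    ring
  have hZ := Zg_pos (E := EuclideanSpace ℝ (Fin (n + 1)))
  have hg := gm_pos (n - 1)
  have hin : L⁻¹ * ((∫ φ in (0 : ℝ)..(2 * π), f1 φ)
        + 2 * n * (n + 1) * ∫ φ in (0 : ℝ)..(2 * π), f2 φ) + L * n * (2 * n + 3) * J
        ≤ L⁻¹ * (4 * n * (n + 1) * (1 + s ^ 2) * Γ * (1 - (n * u + (1 - κ) / (1 + s ^ 2)) / (2 * n))) := by
    have e1 : L * n * (2 * n + 3) * J = L⁻¹ * (2 * n * (n + 1) * (1 + s ^ 2) * J) := by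
      have : L * n * (2 * n + 3) * J = L⁻¹ * (L ^ 2 * n * (2 * n + 3) * J) := by
        field_simp
      rw [this, hLsq]
      field_simp
    rw [e1, ← mul_add]
    refine mul_le_mul_of_nonneg_left ?_ (inv_pos.2 hL0).le
    have e2 : 2 * n * (n + 1) * ∫ φ in (0 : ℝ)..(2 * π), f2 φ ≤ 2 * n * (n + 1) * (s ^ 2 * J) :=
      mul_le_mul_of_nonneg_left hf2le (by positivity)
    have e3 : 4 * n * (n + 1) * s ^ 2 * J ≤ 4 * n * (n + 1) * s ^ 2 * (Γ * (1 - u / 2)) :=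
      mul_le_mul_of_nonneg_left hJu (by positivity)
    have e4 : 4 * n * (n + 1) * (1 + s ^ 2) * Γ * (1 - (n * u + (1 - κ) / (1 + s ^ 2)) / (2 * n))
        = 2 * (n + 1) * n * (2 * Γ * (1 - (n * u + (1 - κ)) / (2 * n)))
          + 4 * n * (n + 1) * s ^ 2 * (Γ * (1 - u / 2)) := by
      field_simp
      ring
    rw [e4]
    linarith
  have hw : L⁻¹ * (2 * (n + 1) * (1 + s ^ 2))
      = √(2 * (n + 1) * (2 * n + 3)) * √(1 + s ^ 2) := by
    have hL2 : L = √(2 * (n + 1) * (1 + s ^ 2) / (2 * n + 3)) := by rw [hL]; congr 1; ring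
    have h7 : L * (√(2 * (n + 1) * (2 * n + 3)) * √(1 + s ^ 2)) = 2 * (n + 1) * (1 + s ^ 2) := by
      rw [hL2, ← Real.sqrt_mul (by positivity), ← Real.sqrt_mul (by positivity)]
      have : 2 * ((n : ℝ) + 1) * (1 + s ^ 2) / (2 * n + 3) * (2 * (n + 1) * (2 * n + 3) * (1 + s ^ 2))
          = (2 * (n + 1) * (1 + s ^ 2)) ^ 2 := by
        field_simp
      rw [this, Real.sqrt_sq (by positivity)]
    rw [← h7]
    field_simp
  calc Zg (EuclideanSpace ℝ (Fin (n + 1))) / 2 * gm (n - 1) * (L⁻¹ * ((∫ φ in (0 : ℝ)..(2 * π), f1 φ)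
        + 2 * n * (n + 1) * ∫ φ in (0 : ℝ)..(2 * π), f2 φ) + L * n * (2 * n + 3) * J)
      ≤ Zg (EuclideanSpace ℝ (Fin (n + 1))) / 2 * gm (n - 1) * (L⁻¹ * (4 * n * (n + 1) * (1 + s ^ 2) * Γ
          * (1 - (n * u + (1 - κ) / (1 + s ^ 2)) / (2 * n)))) :=
        mul_le_mul_of_nonneg_left hin (by positivity)
    _ = Zg (EuclideanSpace ℝ (Fin (n + 1))) * (n * gm (n - 1)) * Γ * (L⁻¹ * (2 * (n + 1) * (1 + s ^ 2)))
          * (1 - (n * u + (1 - κ) / (1 + s ^ 2)) / (2 * n)) := by ring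
    _ = _ := by rw [hw, ← hgm, KN, ← hΓ]; ring


end Pool.Agent.Helper19.PS
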